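import Mathlib
import Pool.Agent.H.MP_05d054_an.A

namespace Pool.Agent.Results.MP_05d054_an.Yes

open Set Metric MeasureTheory Filter Topology Pool.Agent.H.MP_05d054_an
open scoped ENNReal NNReal

/-- Euclidean space -/
abbrev E (n : ℕ) := EuclideanSpace ℝ (Fin n)

/-- the union of the faces of the unit cube -/
def K (n : ℕ) : Set (E n) := {x | (∀ i, x i ∈ Icc (0 : ℝ) 1) ∧ ∃ i, x i = 0 ∨ x i = 1}

/-- the union of the cube boundaries of the packing -/
def G {n : ℕ} (f : ℝ → E n) : Set (E n) := ⋃ t ∈ Ioo (0 : ℝ) 1, (fun x => t • x + f t) '' K n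

/-- difference of the first coordinates, and the other coordinates of both points -/
def Φ (m : ℕ) : (E (m + 1) × E (m + 1)) →ₗ[ℝ] ℝ × (Fin m → ℝ) × (Fin m → ℝ) where
  toFun p := (p.2 0 - p.1 0, fun i => p.1 i.succ, fun i => p.2 i.succ)
  map_add' p q := by
    ext <;> simp
    ring
  map_smul' c p := by
    ext <;> simp
    ring

theorem face {m : ℕ} (f : ℝ → E (m + 1)) {t : ℝ} (ht : t ∈ Ioo (0 : ℝ) 1) {c : ℝ}
    (hc : c = 0 ∨ c = 1) {p : Fin m → ℝ}
    (hp : p ∈ Set.pi univ fun i => Ioo (f t i.succ) (f t i.succ + t)) :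
    ∃ x ∈ G f, x 0 = t * c + f t 0 ∧ ∀ i, x i.succ = p i := by
  have h0 := ht.1
  refine ⟨_, mem_iUnion₂.2 ⟨t, ht, WithLp.toLp 2 (Fin.cons c fun i => (p i - f t i.succ) / t),
    ⟨fun i => ?_, 0, by simpa using hc⟩, rfl⟩, by simp, fun i => ?_⟩
  · refine Fin.cases ?_ (fun i => ?_) i
    · rcases hc with rfl | rfl <;> simp
    · obtain ⟨h1, h2⟩ := hp i trivial
      simp only [Fin.cons_succ, mem_Icc]
      exact ⟨div_nonneg (by linarith) h0.le, (div_le_one h0).2 (by linarith)⟩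
  · simp only [PiLp.add_apply, PiLp.smul_apply, Fin.cons_succ, smul_eq_mul]
    field_simp
    ring

theorem result (n : ℕ) (hn : 1 ≤ n) (f : ℝ → E n)
    (hf : ∀ t ∈ Ioo (0 : ℝ) 1, ∀ i, f t i ∈ Icc (0 : ℝ) 1) :
    2 * (n : ℝ≥0∞) - 1 ≤ dimH (G f) + ubdim (G f) := by
  obtain ⟨m, rfl⟩ : ∃ m, n = m + 1 := ⟨n - 1, by omega⟩
  have hb : TotallyBounded (G f) := by
    refine (isCompact_closedBall (0 : E (m + 1)) √(4 * (m + 1 : ℕ))).totallyBounded.subset ?_
    intro x hx
    obtain ⟨t, ht, y, hy, rfl⟩ := mem_iUnion₂.1 hx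
    rw [mem_closedBall_zero_iff, EuclideanSpace.norm_eq]
    refine Real.sqrt_le_sqrt ((Finset.sum_le_card_nsmul _ _ 4 fun i _ => ?_).trans
      (by simp [mul_comm]))
    obtain ⟨h1, h2⟩ := hf t ht i
    obtain ⟨h3, h4⟩ := hy.1 i
    simp only [PiLp.add_apply, PiLp.smul_apply, smul_eq_mul, Real.norm_eq_abs, sq_abs]
    have h5 : 0 ≤ t * y i := mul_nonneg ht.1.le h3
    have h6 : t * y i ≤ 1 := mul_le_one₀ ht.2.le h3 h4
    nlinarith
  refine le_trans ?_ (((Φ m).toContinuousLinearMap.lipschitz.dimH_image_le _).trans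
    (dimH_prod_le (G f) hb))
  have i1 : ((volume : Measure (Fin m → ℝ)).prod (volume : Measure (Fin m → ℝ))).IsAddHaarMeasure :=
    Measure.prod.instIsAddHaarMeasure _ _
  have i2 : ((volume : Measure ℝ).prod ((volume : Measure (Fin m → ℝ)).prod
      (volume : Measure (Fin m → ℝ)))).IsAddHaarMeasure := Measure.prod.instIsAddHaarMeasure _ _
  refine le_trans (le_of_eq ?_) (finrank_le_dimH ((volume : Measure ℝ).prod
    ((volume : Measure (Fin m → ℝ)).prod (volume : Measure (Fin m → ℝ)))) fun h => ?_)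
  · simp only [Module.finrank_prod, Module.finrank_self, Module.finrank_fintype_fun_eq_card,
      Fintype.card_fin]
    refine ENNReal.sub_eq_of_eq_add (by simp) ?_
    push_cast
    ring
  have h1 := Measure.measure_ae_null_of_prod_null h
  have h2 : volume (Ioo (0 : ℝ) 1) = 0 := by
    refine measure_mono_null (fun t ht => ?_) (ae_iff.1 h1)
    intro h3
    have h4 := isOpen_set_pi (s := fun i : Fin m => Ioo (f t i.succ) (f t i.succ + t))
      finite_univ fun i _ => isOpen_Ioo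
    have h5 : (Set.pi univ fun i : Fin m => Ioo (f t i.succ) (f t i.succ + t)).Nonempty :=
      univ_pi_nonempty_iff.2 fun i => nonempty_Ioo.2 (by linarith [ht.1])
    refine (h4.prod h4).measure_ne_zero (volume.prod volume) (h5.prod h5) (measure_mono_null ?_ h3)
    rintro ⟨p, q⟩ ⟨hp, hq⟩
    obtain ⟨x, hx, hx0, hx1⟩ := face f ht (Or.inl rfl) hp
    obtain ⟨y, hy, hy0, hy1⟩ := face f ht (Or.inr rfl) hq
    refine ⟨(x, y), ⟨hx, hy⟩, ?_⟩
    ext <;> simp [Φ, hx0, hy0, hx1, hy1]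
  simp at h2

end Pool.Agent.Results.MP_05d054_an.Yes
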